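import Mathlib
import Pool.Agent.H16.Zig

set_option autoImplicit false

namespace Pool.Agent.Results.MP_945a85_co.No

open H16.Zig

theorem result :
    (∃ (A B : Set (EuclideanSpace ℝ (Fin 3))) (d : ℝ), Hyp A B d ∧ Disjoint A B ∧
      ¬ EuclideanGeometry.Cospherical A ∧ ¬ EuclideanGeometry.Cospherical B) ∧
    (∃ (A : Set (EuclideanSpace ℝ (Fin 2))) (d : ℝ), Hyp A A d ∧
      ¬ EuclideanGeometry.Cospherical A) :=
  H16.Zig.main

end Pool.Agent.Results.MP_945a85_co.No
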